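import Mathlib
import Pool.Agent.Zk12.GT.Stm
import Pool.Agent.Zk12.FG.Ob
import Pool.Agent.H927R2.RD.T13

/-!
# Embeddings in `ℚ_p` at which given elements are units (project GT, part V)
-/

set_option autoImplicit false
set_option linter.all false

namespace Pool.Agent.Zk95.GT

open Pool.Agent.Zk12.FG Pool.Agent.Zk12.GT

attribute [-instance] DivisionRing.toRatAlgebra
attribute [local instance 1] DivisionRing.toRatAlgebra

section

variable {n : ℕ} {k : Type} [Field k] [Algebra ℚ k] {t : Fin n → k}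

/-- clearing denominators -/
theorem clear (P : MvPolynomial (Fin n) ℚ) : ∃ (c : ℤ) (P' : MvPolynomial (Fin n) ℤ), c ≠ 0 ∧
    MvPolynomial.C (c : ℚ) * P = MvPolynomial.map (Int.castRingHom ℚ) P' := by
  classical
  induction P using MvPolynomial.induction_on with
  | C q =>
    refine ⟨q.den, MvPolynomial.C q.num, by exact_mod_cast q.den_nz, ?_⟩
    rw [MvPolynomial.map_C, ← map_mul]
    congr 1
    have := Rat.mul_den_eq_num q
    simp only [Int.cast_natCast, eq_intCast]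
    rw [mul_comm]
    exact this
  | add p q hp hq =>
    obtain ⟨c, p', hc, h1⟩ := hp
    obtain ⟨d, q', hd, h2⟩ := hq
    refine ⟨c * d, MvPolynomial.C d * p' + MvPolynomial.C c * q', mul_ne_zero hc hd, ?_⟩
    rw [map_add, map_mul, map_mul, MvPolynomial.map_C, MvPolynomial.map_C, ← h1, ← h2]
    push_cast
    simp only [eq_intCast, map_mul]
    ring
  | mul_X p i hp =>
    obtain ⟨c, p', hc, h1⟩ := hp
    refine ⟨c, p' * MvPolynomial.X i, hc, ?_⟩
    rw [map_mul, MvPolynomial.map_X, ← h1, mul_assoc]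

/-- an element is a quotient of integral polynomials -/
theorem exists_int (ht : RatFn ℚ t) (c : k) (hc : c ≠ 0) : ∃ P Q : MvPolynomial (Fin n) ℤ,
    P ≠ 0 ∧ Q ≠ 0 ∧ c * MvPolynomial.aeval t (MvPolynomial.map (Int.castRingHom ℚ) Q) =
      MvPolynomial.aeval t (MvPolynomial.map (Int.castRingHom ℚ) P) := by
  haveI : CharZero k := charZero_of_injective_algebraMap (algebraMap ℚ k).injective
  obtain ⟨P, Q, hQ, h⟩ := ht.exists_quot c
  obtain ⟨a, P', ha, hP'⟩ := clear P
  obtain ⟨b, Q', hb, hQ'⟩ := clear Q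
  have hQt : MvPolynomial.aeval t Q ≠ 0 := by
    intro h0
    apply hQ
    apply ht.inj
    rw [h0, map_zero]
  have hbQ : (b : ℚ) ≠ 0 := by exact_mod_cast hb
  have haQ : (a : ℚ) ≠ 0 := by exact_mod_cast ha
  have hPt : MvPolynomial.aeval t P ≠ 0 := by
    intro h0
    rw [h0, zero_div] at h
    exact hc h
  have hka : algebraMap ℚ k (a : ℚ) ≠ 0 := (map_ne_zero _).2 haQ
  have hkb : algebraMap ℚ k (b : ℚ) ≠ 0 := (map_ne_zero _).2 hbQ
  have key : c * MvPolynomial.aeval t (MvPolynomial.map (Int.castRingHom ℚ)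
      (MvPolynomial.C a * Q')) = MvPolynomial.aeval t (MvPolynomial.map (Int.castRingHom ℚ)
      (MvPolynomial.C b * P')) := by
    rw [map_mul (MvPolynomial.map (Int.castRingHom ℚ)), map_mul (MvPolynomial.map (Int.castRingHom ℚ)),
      MvPolynomial.map_C, MvPolynomial.map_C, ← hP', ← hQ']
    simp only [eq_intCast, map_mul, MvPolynomial.aeval_C]
    rw [h]
    field_simp
  refine ⟨MvPolynomial.C b * P', MvPolynomial.C a * Q', ?_, ?_, key⟩
  · intro h0
    rw [h0, map_zero, map_zero, map_mul, MvPolynomial.map_C, ← hQ'] at key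
    simp only [eq_intCast, map_mul, MvPolynomial.aeval_C] at key
    exact mul_ne_zero hc (mul_ne_zero hka (mul_ne_zero hkb hQt)) key
  · intro h0
    rw [h0, map_zero, map_zero, mul_zero, map_mul, MvPolynomial.map_C, ← hP'] at key
    simp only [eq_intCast, map_mul, MvPolynomial.aeval_C] at key
    exact mul_ne_zero hkb (mul_ne_zero hka hPt) key.symm

end

/-- the value of an integral polynomial at a point with given residues -/
theorem norm_eval {n p : ℕ} [Fact p.Prime] {a : Fin n → ℤ} {τ : Fin n → ℤ_[p]}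
    (h : ∀ i, (PadicInt.toZMod (τ i) : ZMod p) = (a i : ZMod p)) (P : MvPolynomial (Fin n) ℤ)
    (hP : ¬ (p : ℤ) ∣ MvPolynomial.eval a P) :
    ‖MvPolynomial.aeval (fun i => (τ i : ℚ_[p]))
      (MvPolynomial.map (Int.castRingHom ℚ) P)‖ = 1 := by
  have h1 : MvPolynomial.aeval (fun i => (τ i : ℚ_[p])) (MvPolynomial.map (Int.castRingHom ℚ) P) =
      ((MvPolynomial.eval₂ (Int.castRingHom ℤ_[p]) τ P : ℤ_[p]) : ℚ_[p]) := by
    rw [MvPolynomial.aeval_def, MvPolynomial.eval₂_map]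
    have h2 := MvPolynomial.eval₂_comp_left (PadicInt.Coe.ringHom (p := p))
      (Int.castRingHom ℤ_[p]) τ P
    have h3 : ((MvPolynomial.eval₂ (Int.castRingHom ℤ_[p]) τ P : ℤ_[p]) : ℚ_[p]) =
        PadicInt.Coe.ringHom (MvPolynomial.eval₂ (Int.castRingHom ℤ_[p]) τ P) := rfl
    rw [h3, h2]
    congr 1
  rw [h1, ← PadicInt.norm_def, ← PadicInt.isUnit_iff]
  have h4 : PadicInt.toZMod (MvPolynomial.eval₂ (Int.castRingHom ℤ_[p]) τ P) =
      ((MvPolynomial.eval a P : ℤ) : ZMod p) := by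
    have h5 := MvPolynomial.eval₂_comp_left (PadicInt.toZMod (p := p)) (Int.castRingHom ℤ_[p]) τ P
    have h6 := MvPolynomial.eval₂_comp_left (Int.castRingHom (ZMod p)) (RingHom.id ℤ) a P
    have h7 : MvPolynomial.eval a P = MvPolynomial.eval₂ (RingHom.id ℤ) a P := rfl
    rw [h5, h7]
    change _ = (Int.castRingHom (ZMod p)) _
    rw [h6]
    congr 1
    · exact Subsingleton.elim _ _
    · funext i
      exact h i
  by_contra hcon
  have h8 : MvPolynomial.eval₂ (Int.castRingHom ℤ_[p]) τ P ∈ IsLocalRing.maximalIdeal ℤ_[p] :=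
    (IsLocalRing.mem_maximalIdeal _).2 hcon
  rw [← PadicInt.ker_toZMod, RingHom.mem_ker, h4] at h8
  exact hP ((ZMod.intCast_zmod_eq_zero_iff_dvd _ _).1 h8)

/-- **part V** -/
theorem unit : S_UNIT := by
  classical
  intro n k _ _ t ht S hS N
  have hS' : ∀ s ∈ S, s ≠ 0 := fun s hs h => hS (h ▸ hs)
  have hex : ∀ s : k, ∃ P Q : MvPolynomial (Fin n) ℤ, s ∈ S → P ≠ 0 ∧ Q ≠ 0 ∧
      s * MvPolynomial.aeval t (MvPolynomial.map (Int.castRingHom ℚ) Q) =
      MvPolynomial.aeval t (MvPolynomial.map (Int.castRingHom ℚ) P) := by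
    intro s
    by_cases hs : s ∈ S
    · obtain ⟨P, Q, h⟩ := exists_int ht s (hS' s hs)
      exact ⟨P, Q, fun _ => h⟩
    · exact ⟨0, 0, fun h => absurd h hs⟩
  choose P Q hPQ using hex
  set R : MvPolynomial (Fin n) ℤ := ∏ s ∈ S, (P s * Q s) with hR
  have hR0 : R ≠ 0 := Finset.prod_ne_zero_iff.2 fun s hs =>
    mul_ne_zero (hPQ s hs).1 (hPQ s hs).2.1
  obtain ⟨a, ha⟩ : ∃ a : Fin n → ℤ, MvPolynomial.eval a R ≠ 0 := by
    by_contra hcon
    push Not at hcon
    apply hR0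
    apply MvPolynomial.funext
    intro x
    rw [hcon x, map_zero]
  obtain ⟨p, hp1, hp⟩ := Nat.exists_infinite_primes (N + (MvPolynomial.eval a R).natAbs + 1)
  haveI : Fact p.Prime := ⟨hp⟩
  have hpR : ¬ (p : ℤ) ∣ MvPolynomial.eval a R := by
    intro h
    have h1 := Int.natAbs_dvd_natAbs.2 h
    rw [Int.natAbs_natCast] at h1
    have h2 := Nat.le_of_dvd (Int.natAbs_pos.2 ha) h1
    omega
  obtain ⟨τ, hτ, hτa⟩ := Pool.Agent.H927R2.RD.exists_indep p n a
  obtain ⟨φ, hφ⟩ := ht.exists_hom hτ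
  refine ⟨p, ⟨hp⟩, φ, by omega, fun s hs => ?_⟩
  have hdiv : P s * Q s ∣ R := Finset.dvd_prod_of_mem (fun s => P s * Q s) hs
  have hPs : ¬ (p : ℤ) ∣ MvPolynomial.eval a (P s) := by
    intro h
    apply hpR
    obtain ⟨R', hR'⟩ := hdiv
    rw [hR', map_mul, map_mul]
    exact (h.mul_right _).mul_right _
  have hQs : ¬ (p : ℤ) ∣ MvPolynomial.eval a (Q s) := by
    intro h
    apply hpR
    obtain ⟨R', hR'⟩ := hdiv
    rw [hR', map_mul, map_mul]
    exact (h.mul_left _).mul_right _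
  have h1 := congrArg φ (hPQ s hs).2.2
  rw [map_mul, hφ, hφ] at h1
  have h2 := congrArg norm h1
  rw [norm_mul, norm_eval hτa (P s) hPs, norm_eval hτa (Q s) hQs, mul_one] at h2
  exact h2

end Pool.Agent.Zk95.GT
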