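import Mathlib
import Pool.Agent.Zk95.GT.Unit

/-!
# Project GT, part T
-/

set_option autoImplicit false
set_option linter.all false

namespace Pool.Agent.Zk95.GT

open Pool.Agent.Zk12.FG Pool.Agent.Zk12.GT

attribute [-instance] DivisionRing.toRatAlgebra
attribute [local instance 1] DivisionRing.toRatAlgebra

section

variable {k κ : Type} [Field k] [Field κ] [Algebra k κ]

/-- the elements of `k(√z)` -/
theorem mem_adj {y : κ} {z : k} (h : y ^ 2 = algebraMap k κ z) {x : κ}
    (hx : x ∈ IntermediateField.adjoin k {y}) :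
    ∃ α β : k, x = algebraMap k κ α + algebraMap k κ β * y := by
  have hy : IsIntegral k y := by
    refine ⟨Polynomial.X ^ 2 - Polynomial.C z, Polynomial.monic_X_pow_sub_C z two_ne_zero, ?_⟩
    simp [h]
  have hx' : x ∈ Algebra.adjoin k {y} := by
    rw [← IntermediateField.adjoin_simple_toSubalgebra_of_isAlgebraic hy.isAlgebraic]
    exact hx
  clear hx
  induction hx' using Algebra.adjoin_induction with
  | mem x hx =>
    rw [Set.mem_singleton_iff] at hx
    exact ⟨0, 1, by rw [hx, map_zero, map_one, zero_add, one_mul]⟩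
  | algebraMap r => exact ⟨r, 0, by rw [map_zero, zero_mul, add_zero]⟩
  | add x1 x2 h1 h2 ih1 ih2 =>
    obtain ⟨α, β, e1⟩ := ih1
    obtain ⟨α', β', e2⟩ := ih2
    refine ⟨α + α', β + β', ?_⟩
    rw [e1, e2, map_add, map_add]
    ring
  | mul x1 x2 h1 h2 ih1 ih2 =>
    obtain ⟨α, β, e1⟩ := ih1
    obtain ⟨α', β', e2⟩ := ih2
    refine ⟨α * α' + β * β' * z, α * β' + β * α', ?_⟩
    rw [e1, e2]
    simp only [map_add, map_mul, ← h]
    ring

/-- two square roots which generate the same field -/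
theorem same_class [CharZero k] {y y' : κ} {z z' : k} (h : y ^ 2 = algebraMap k κ z)
    (h' : y' ^ 2 = algebraMap k κ z') (hz : z ≠ 0) (hz' : z' ≠ 0)
    (he : IntermediateField.adjoin k {y} = IntermediateField.adjoin k {y'}) :
    ∃ c : k, z = z' * c ^ 2 := by
  have hinj : Function.Injective (algebraMap k κ) := (algebraMap k κ).injective
  have hy0 : y ≠ 0 := by
    rintro rfl
    rw [zero_pow two_ne_zero] at h
    exact hz ((map_eq_zero _).1 h.symm)
  have hy'0 : y' ≠ 0 := by
    rintro rfl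
    rw [zero_pow two_ne_zero] at h'
    exact hz' ((map_eq_zero _).1 h'.symm)
  have h1 : y ∈ IntermediateField.adjoin k {y'} := by
    rw [← he]
    exact IntermediateField.mem_adjoin_simple_self k y
  have h1' : y' ∈ IntermediateField.adjoin k {y} := by
    rw [he]
    exact IntermediateField.mem_adjoin_simple_self k y'
  obtain ⟨α, β, e⟩ := mem_adj h' h1
  have h2 : algebraMap k κ z = algebraMap k κ (α ^ 2 + β ^ 2 * z') +
      algebraMap k κ (2 * α * β) * y' := by
    rw [← h, e]
    simp only [map_add, map_mul, map_pow, ← h', map_ofNat]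
    ring
  by_cases hαβ : 2 * α * β = 0
  · rcases mul_eq_zero.1 hαβ with h3 | h3
    · have hα : α = 0 := (mul_eq_zero.1 h3).resolve_left two_ne_zero
      refine ⟨β, hinj ?_⟩
      rw [h2, hα]
      simp only [map_add, map_mul, map_pow, map_zero, mul_zero, zero_mul, add_zero]
      ring
    · -- `y` is in `k`
      rw [h3, map_zero, zero_mul, add_zero] at e
      have h4 : y' ∈ IntermediateField.adjoin k {y} := h1'
      obtain ⟨α', β', e'⟩ := mem_adj h h4
      have h5 : y' = algebraMap k κ (α' + β' * α) := by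
        rw [e', e, map_add, map_mul]
      have hγ : α' + β' * α ≠ 0 := by
        intro h6
        rw [h6, map_zero] at h5
        exact hy'0 h5
      refine ⟨α / (α' + β' * α), hinj ?_⟩
      rw [map_mul, ← h, ← h', e, map_pow, map_div₀, h5]
      have h7 : algebraMap k κ (α' + β' * α) ≠ 0 := (map_ne_zero _).2 hγ
      field_simp
  · -- `y'` is in `k`
    have h3 : y' = algebraMap k κ ((z - (α ^ 2 + β ^ 2 * z')) / (2 * α * β)) := by
      have h4 : algebraMap k κ (2 * α * β) ≠ 0 := (map_ne_zero _).2 hαβ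
      rw [map_div₀, map_sub, eq_div_iff h4, h2]
      ring
    set δ := (z - (α ^ 2 + β ^ 2 * z')) / (2 * α * β) with hδ
    have h5 : y = algebraMap k κ (α + β * δ) := by
      rw [e, h3, map_add, map_mul]
    have hδ0 : δ ≠ 0 := by
      intro h6
      rw [h6, map_zero] at h3
      exact hy'0 h3
    refine ⟨(α + β * δ) / δ, hinj ?_⟩
    clear_value δ
    rw [map_mul, ← h, ← h', h5, h3, ← map_pow, ← map_pow, ← map_mul]
    congr 1
    field_simp

/-- only finitely many classes become squares in a finite extension -/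
theorem class_fin [CharZero k] (hfd : FiniteDimensional k κ) : ∃ Z : Finset k, 0 ∉ Z ∧
    ∀ z : k, z ≠ 0 → IsSquare (algebraMap k κ z) → ∃ z' ∈ Z, ∃ c, z = z' * c ^ 2 := by
  classical
  haveI := hfd
  haveI : Finite (IntermediateField k κ) :=
    Field.finite_intermediateField_of_exists_primitive_element k κ
      (Field.exists_primitive_element k κ)
  let P : IntermediateField k κ → k → Prop := fun L z => z ≠ 0 ∧ ∃ y : κ,
    y ^ 2 = algebraMap k κ z ∧ IntermediateField.adjoin k {y} = L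
  let rep : IntermediateField k κ → k := fun L => if h : ∃ z, P L z then h.choose else 1
  have hrep : ∀ L z, P L z → P L (rep L) := by
    intro L z h
    have h1 : ∃ z, P L z := ⟨z, h⟩
    simp only [rep, dif_pos h1]
    exact h1.choose_spec
  have hrep0 : ∀ L, rep L ≠ 0 := by
    intro L
    by_cases h : ∃ z, P L z
    · simp only [rep, dif_pos h]
      exact h.choose_spec.1
    · simp only [rep, dif_neg h]
      exact one_ne_zero
  letI := Fintype.ofFinite (IntermediateField k κ)
  refine ⟨Finset.univ.image rep, ?_, ?_⟩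
  · rw [Finset.mem_image]
    rintro ⟨L, -, h⟩
    exact hrep0 L h
  · rintro z hz ⟨y, hy⟩
    have hy2 : y ^ 2 = algebraMap k κ z := by rw [hy, sq]
    have h1 : P (IntermediateField.adjoin k {y}) z := ⟨hz, y, hy2, rfl⟩
    obtain ⟨h2, y', h3, h4⟩ := hrep _ z h1
    refine ⟨rep (IntermediateField.adjoin k {y}), Finset.mem_image_of_mem _ (Finset.mem_univ _), ?_⟩
    exact same_class hy2 h3 hz h2 h4.symm

end

/-- an element of norm `1 / p` is not a unit times a square -/
theorem not_class {k : Type} [Field k] {p : ℕ} [hp : Fact p.Prime] (φ : k →+* ℚ_[p]) {z w c : k}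
    (hz : ‖φ z‖ = 1) (hw : ‖φ w‖ = (p : ℝ)⁻¹) (h : w = z * c ^ 2) : False := by
  have h1 : ‖φ w‖ = ‖φ c‖ ^ 2 := by
    rw [h, map_mul, map_pow, norm_mul, norm_pow, hz, one_mul]
  have hp1 : (1 : ℝ) < p := by exact_mod_cast hp.out.one_lt
  have hc : φ c ≠ 0 := by
    intro h0
    rw [h0, norm_zero, hw] at h1
    have : (p : ℝ)⁻¹ ≠ 0 := by positivity
    exact this (by rw [h1]; norm_num)
  rw [hw, Padic.norm_eq_zpow_neg_valuation hc, ← zpow_natCast, ← zpow_mul, ← zpow_neg_one] at h1
  have h2 := zpow_right_injective₀ (by linarith) hp1.ne' h1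
  have h3 : (-1 : ℤ) = -(φ c).valuation * 2 := h2
  omega

/-- **part T** -/
theorem star : S_STAR := by
  classical
  intro n k _ _ t ht κ _ _ hfd a b l hab hal hbl
  haveI : CharZero k := charZero_of_injective_algebraMap (algebraMap ℚ k).injective
  obtain ⟨Z, hZ0, hZ⟩ := class_fin (κ := κ) hfd
  have hab' : a - b ≠ 0 := sub_ne_zero.2 hab
  have hal' : a - l ≠ 0 := sub_ne_zero.2 hal
  have hbl' : b - l ≠ 0 := sub_ne_zero.2 hbl
  set S : Finset k := insert (a - b) (insert (a - l) (insert (b - l) Z)) with hS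
  have hS0 : (0 : k) ∉ S := by
    simp only [hS, Finset.mem_insert, not_or]
    exact ⟨hab'.symm, hal'.symm, hbl'.symm, hZ0⟩
  obtain ⟨p, hp, φ, -, hφ⟩ := unit n k t ht S hS0 0
  obtain ⟨q, hq, ψ, hpq, hψ⟩ := unit n k t ht S hS0 p
  have hne : p ≠ q := by omega
  have hcop : Nat.Coprime (p ^ 2) (q ^ 2) :=
    Nat.Coprime.pow _ _ ((Nat.coprime_primes hp.out hq.out).2 hne)
  obtain ⟨u, hu1, hu2⟩ := Nat.chineseRemainder hcop p (1 + q)
  -- the norms
  have hpu : ∃ m : ℤ, (u : ℤ) = p * (1 + p * m) := by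
    have h1 : (p : ℤ) ^ 2 ∣ (u : ℤ) - p := by
      have h2 := (Nat.modEq_iff_dvd.1 hu1.symm)
      push_cast at h2
      exact h2
    obtain ⟨m, hm⟩ := h1
    exact ⟨m, by linear_combination hm⟩
  have hqu : ∃ m : ℤ, 1 - (u : ℤ) = q * (-1 + q * m) := by
    have h1 : (q : ℤ) ^ 2 ∣ (1 + q : ℤ) - u := by
      have h2 := (Nat.modEq_iff_dvd.1 hu2)
      push_cast at h2
      exact h2
    obtain ⟨m, hm⟩ := h1
    exact ⟨m, by linear_combination hm⟩
  have hnp : ‖((u : ℤ) : ℚ_[p])‖ = (p : ℝ)⁻¹ := by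
    obtain ⟨m, hm⟩ := hpu
    rw [hm]
    push_cast
    have h1 : ‖((1 + p * m : ℤ) : ℚ_[p])‖ = 1 := by
      rw [Padic.norm_intCast_eq_one_iff]
      exact ⟨1, -m, by ring⟩
    push_cast at h1
    rw [norm_mul, h1, mul_one, Padic.norm_p]
  have hnq : ‖((1 - u : ℤ) : ℚ_[q])‖ = (q : ℝ)⁻¹ := by
    obtain ⟨m, hm⟩ := hqu
    rw [hm]
    push_cast
    have h1 : ‖((-1 + q * m : ℤ) : ℚ_[q])‖ = 1 := by
      rw [Padic.norm_intCast_eq_one_iff]
      exact ⟨-1, m, by ring⟩
    push_cast at h1
    rw [norm_mul, h1, mul_one, Padic.norm_p]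
  have hmemab : a - b ∈ S := by simp [hS]
  have hmemal : a - l ∈ S := by simp [hS]
  have hmemZ : ∀ z ∈ Z, z ∈ S := fun z hz => by simp [hS, hz]
  refine ⟨a + (l - a) * (u : k), ?_, ?_⟩
  · intro hsq
    have hw : ‖φ ((a - (a + (l - a) * (u : k))) * (b - (a + (l - a) * (u : k))))‖ = (p : ℝ)⁻¹ := by
      have e1 : (a - (a + (l - a) * (u : k))) * (b - (a + (l - a) * (u : k))) =
          ((a - l) * (u : k)) * ((a - l) * (u : k) - (a - b)) := by ring
      have h1 : ‖φ ((a - l) * (u : k))‖ = (p : ℝ)⁻¹ := by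
        rw [map_mul, norm_mul, hφ _ hmemal, one_mul, map_natCast]
        have h2 : ((u : ℕ) : ℚ_[p]) = (((u : ℕ) : ℤ) : ℚ_[p]) := by push_cast; rfl
        rw [h2]
        exact hnp
      have hp1 : (1 : ℝ) < p := by exact_mod_cast hp.out.one_lt
      have h3 : ‖φ ((a - l) * (u : k)) - φ (a - b)‖ = 1 := by
        have h4 : ‖φ ((a - l) * (u : k))‖ ≠ ‖-φ (a - b)‖ := by
          rw [norm_neg, hφ _ hmemab, h1]
          exact (inv_lt_one_of_one_lt₀ hp1).ne
        rw [sub_eq_add_neg, Padic.add_eq_max_of_ne h4, norm_neg, hφ _ hmemab, h1]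
        exact max_eq_right (inv_lt_one_of_one_lt₀ hp1).le
      rw [e1, map_mul, norm_mul, h1, map_sub, h3, mul_one]
    have hw0 : (a - (a + (l - a) * (u : k))) * (b - (a + (l - a) * (u : k))) ≠ 0 := by
      intro h0
      rw [h0, map_zero, norm_zero] at hw
      have : (0 : ℝ) < (p : ℝ)⁻¹ := by
        have := hp.out.pos
        positivity
      linarith
    obtain ⟨z, hz, c, hc⟩ := hZ _ hw0 hsq
    exact not_class φ (hφ z (hmemZ z hz)) hw hc
  · intro hsq
    have hw : ‖ψ ((a + (l - a) * (u : k) - l) * (a - l))‖ = (q : ℝ)⁻¹ := by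
      have e1 : (a + (l - a) * (u : k) - l) * (a - l) =
          (((1 - u : ℤ)) : k) * ((a - l) * (a - l)) := by push_cast; ring
      rw [e1, map_mul, map_mul, norm_mul, norm_mul, hψ _ hmemal, mul_one, mul_one, map_intCast]
      exact hnq
    have hw0 : (a + (l - a) * (u : k) - l) * (a - l) ≠ 0 := by
      intro h0
      rw [h0, map_zero, norm_zero] at hw
      have : (0 : ℝ) < (q : ℝ)⁻¹ := by
        have := hq.out.pos
        positivity
      linarith
    obtain ⟨z, hz, c, hc⟩ := hZ _ hw0 hsq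
    exact not_class ψ (hψ z (hmemZ z hz)) hw hc

end Pool.Agent.Zk95.GT
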